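import Mathlib
import Pool.Agent.helper7.OC.Defs
import Pool.Agent.helper85.MT.MLS

/-!
# Moments of sums of Jacobi symbols over primes (multiplicative large sieve)
-/

set_option autoImplicit false

open Finset

namespace Pool.Agent.helper7.OC

namespace BB1

/-- the `k`-tuples of elements of `P` with product `n` -/
noncomputable def tup (P : Finset ℕ) (k n : ℕ) : Finset (Fin k → ℕ) :=
  (Fintype.piFinset (fun _ : Fin k => P)).filter (fun f => ∏ i, f i = n)

lemma card_tup_le (P : Finset ℕ) (k n : ℕ) (hP : ∀ ℓ ∈ P, ℓ.Prime) :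
    (tup P k n).card ≤ k.factorial := by
  rcases (tup P k n).eq_empty_or_nonempty with h | ⟨f0, hf0⟩
  · rw [h, card_empty]
    exact Nat.zero_le _
  have key : ∀ f ∈ tup P k n, (List.ofFn f).Perm n.primeFactorsList := by
    intro f hf
    rw [tup, mem_filter, Fintype.mem_piFinset] at hf
    apply Nat.primeFactorsList_unique
    · rw [List.prod_ofFn]
      exact hf.2
    · intro p hp
      rw [List.mem_ofFn] at hp
      obtain ⟨i, rfl⟩ := hp
      exact hP _ (hf.1 i)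
  have hlen : n.primeFactorsList.length = k := by
    rw [← (key f0 hf0).length_eq, List.length_ofFn]
  calc (tup P k n).card ≤ (n.primeFactorsList.permutations.toFinset).card := by
        apply Finset.card_le_card_of_injOn (fun f => List.ofFn f)
        · intro f hf
          simp only [List.coe_toFinset, Set.mem_setOf_eq]
          rw [List.mem_permutations]
          exact key f hf
        · intro f _ g _ h
          exact List.ofFn_injective h
    _ ≤ n.primeFactorsList.permutations.length := List.toFinset_card_le _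
    _ = k.factorial := by rw [List.length_permutations, hlen]

lemma J_mul (a b m : ℕ) : J (a * b) m = J a m * J b m := by
  unfold J
  rw [Nat.cast_mul, jacobiSym.mul_left]
  push_cast
  ring

lemma J_one (m : ℕ) : J 1 m = 1 := by
  unfold J
  simp

lemma J_prod {ι : Type*} (s : Finset ι) (f : ι → ℕ) (m : ℕ) :
    J (∏ i ∈ s, f i) m = ∏ i ∈ s, J (f i) m := by
  classical
  induction s using Finset.induction_on with
  | empty => simp [J_one]
  | insert a s ha ih => rw [prod_insert ha, prod_insert ha, J_mul, ih]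

/-- grouping the tuples according to the product -/
lemma group (P : Finset ℕ) (k N V : ℕ) (hV : ∀ ℓ ∈ P, 0 < ℓ ∧ ℓ ≤ V) (hN : V ^ k ≤ N)
    (g : ℕ → ℝ) :
    ∑ f ∈ Fintype.piFinset (fun _ : Fin k => P), g (∏ i, f i)
      = ∑ n ∈ Ioc 0 N, ((tup P k n).card : ℝ) * g n := by
  have hmap : ∀ f ∈ Fintype.piFinset (fun _ : Fin k => P), ∏ i, f i ∈ Ioc 0 N := by
    intro f hf
    rw [Fintype.mem_piFinset] at hf
    rw [mem_Ioc]
    constructor
    · exact Finset.prod_pos (fun i _ => (hV _ (hf i)).1)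
    · calc ∏ i, f i ≤ ∏ _i : Fin k, V := Finset.prod_le_prod' (fun i _ => (hV _ (hf i)).2)
        _ = V ^ k := by simp
        _ ≤ N := hN
  rw [← Finset.sum_fiberwise_of_maps_to hmap]
  apply sum_congr rfl
  intro n _
  rw [tup]
  rw [Finset.sum_congr rfl (g := fun _ => g n)]
  · rw [sum_const, nsmul_eq_mul]
  · intro f hf
    rw [mem_filter] at hf
    rw [hf.2]

lemma cs_pow (P : Finset ℕ) (m k : ℕ) :
    cs P m ^ k = ∑ f ∈ Fintype.piFinset (fun _ : Fin k => P),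
      (fun n : ℕ => J n m / n) (∏ i, f i) := by
  unfold cs
  have h := Finset.prod_univ_sum (ι := Fin k) (fun _ => P) (fun _ (ℓ : ℕ) => J ℓ m / (ℓ : ℝ))
  rw [prod_const, card_univ, Fintype.card_fin] at h
  rw [h]
  apply sum_congr rfl
  intro f _
  simp only []
  rw [J_prod, prod_div_distrib]
  push_cast
  rfl

lemma hs_pow (P : Finset ℕ) (k : ℕ) :
    hs P ^ k = ∑ f ∈ Fintype.piFinset (fun _ : Fin k => P),
      (fun n : ℕ => 1 / (n : ℝ)) (∏ i, f i) := by
  unfold hs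
  have h := Finset.prod_univ_sum (ι := Fin k) (fun _ => P) (fun _ (ℓ : ℕ) => 1 / (ℓ : ℝ))
  rw [prod_const, card_univ, Fintype.card_fin] at h
  rw [h]
  apply sum_congr rfl
  intro f _
  simp only []
  rw [prod_div_distrib]
  push_cast
  simp

lemma hs_le (P : Finset ℕ) (V C₁ : ℕ) (hV : 1 ≤ V)
    (hP : ∀ ℓ ∈ P, V < ℓ ∧ ℓ ≤ C₁ * V) : hs P ≤ C₁ := by
  unfold hs
  have hVr : (0 : ℝ) < V := by exact_mod_cast hV
  have hcard : P.card ≤ C₁ * V := by
    calc P.card ≤ (Ioc 0 (C₁ * V)).card := by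
          apply card_le_card
          intro ℓ hℓ
          rw [mem_Ioc]
          have := hP ℓ hℓ
          omega
      _ = C₁ * V := by simp
  calc ∑ ℓ ∈ P, 1 / (ℓ : ℝ) ≤ ∑ _ℓ ∈ P, 1 / (V : ℝ) := by
        apply sum_le_sum
        intro ℓ hℓ
        apply one_div_le_one_div_of_le hVr
        exact_mod_cast (hP ℓ hℓ).1.le
    _ = P.card / V := by
        rw [sum_const, nsmul_eq_mul]
        ring
    _ ≤ C₁ := by
        rw [div_le_iff₀ hVr]
        exact_mod_cast hcard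

lemma hs_nonneg (P : Finset ℕ) : 0 ≤ hs P := by
  unfold hs
  exact sum_nonneg (fun ℓ _ => by positivity)

end BB1

open BB1 in
open Classical in
/-- The moment bound with the characters as hypothesis. -/
theorem moment_aux
    (jac : ∀ (m : ℕ), Squarefree m → Odd m → 1 < m →
      ∃ χ : DirichletCharacter ℂ m, χ.IsPrimitive ∧ ∀ n : ℕ, χ n = (jacobiSym (n : ℤ) m : ℂ))
    (P 𝓜 : Finset ℕ) (V R C₁ k : ℕ) (η : ℝ) (hV : 1 ≤ V) (hC : 1 ≤ C₁)
    (hP : ∀ ℓ ∈ P, ℓ.Prime ∧ V < ℓ ∧ ℓ ≤ C₁ * V) (hR : R ^ 2 ≤ V ^ k) (hη : 0 < η)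
    (h𝓜 : ∀ m ∈ 𝓜, Squarefree m ∧ Odd m ∧ 1 < m ∧ m ≤ R ∧ η ≤ |cs P m|) :
    (𝓜.card : ℝ) ≤ 10 * (C₁ ^ 2 * k / η ^ 2) ^ k := by
  set N : ℕ := (C₁ * V) ^ k with hN
  set a : ℕ → ℂ := fun n => (((tup P k n).card : ℝ) / (n : ℝ) : ℝ) with ha
  have hPV : ∀ ℓ ∈ P, 0 < ℓ ∧ ℓ ≤ C₁ * V := fun ℓ hℓ => ⟨(hP ℓ hℓ).1.pos, (hP ℓ hℓ).2.2⟩
  have hLS := Pool.Agent.helper85.MT.mult_large_sieve R 0 N a
  rw [zero_add] at hLS
  -- every element of `𝓜` contributes
  have hterm : ∀ m ∈ 𝓜, η ^ (2 * k) ≤ (m : ℝ) / Nat.totient m *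
      ∑ χ : DirichletCharacter ℂ m with χ.IsPrimitive, ‖∑ n ∈ Ioc 0 N, a n * χ n‖ ^ 2 := by
    intro m hm
    obtain ⟨hsq, hodd, h1, hmR, hcs⟩ := h𝓜 m hm
    obtain ⟨χ, hχ, hval⟩ := jac m hsq hodd h1
    have hsum : ∑ n ∈ Ioc 0 N, a n * χ n = ((cs P m ^ k : ℝ) : ℂ) := by
      rw [cs_pow, group P k N (C₁ * V) hPV (le_refl _) (fun n : ℕ => J n m / n)]
      push_cast
      apply sum_congr rfl
      intro n _
      rw [hval, ha]
      unfold J
      push_cast
      ring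
    have h2 : ‖∑ n ∈ Ioc 0 N, a n * χ n‖ ^ 2 = |cs P m| ^ (2 * k) := by
      rw [hsum, Complex.norm_real, Real.norm_eq_abs, abs_pow, ← pow_mul, mul_comm k 2]
    have h3 : |cs P m| ^ (2 * k) ≤
        ∑ χ : DirichletCharacter ℂ m with χ.IsPrimitive, ‖∑ n ∈ Ioc 0 N, a n * χ n‖ ^ 2 := by
      rw [← h2]
      exact Finset.single_le_sum (f := fun χ : DirichletCharacter ℂ m =>
        ‖∑ n ∈ Ioc 0 N, a n * χ n‖ ^ 2) (fun _ _ => by positivity)
        (by rw [mem_filter]; exact ⟨mem_univ _, hχ⟩)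
    have h4 : (1 : ℝ) ≤ (m : ℝ) / Nat.totient m := by
      rw [le_div_iff₀ (by exact_mod_cast Nat.totient_pos.2 (by omega)), one_mul]
      exact_mod_cast Nat.totient_le m
    calc η ^ (2 * k) ≤ |cs P m| ^ (2 * k) := pow_le_pow_left₀ hη.le hcs _
      _ ≤ _ := h3
      _ = 1 * _ := (one_mul _).symm
      _ ≤ _ := by
        apply mul_le_mul_of_nonneg_right h4
        exact sum_nonneg (fun _ _ => by positivity)
  have hLHS : (𝓜.card : ℝ) * η ^ (2 * k) ≤ 5 * ((N : ℝ) + R ^ 2) * ∑ n ∈ Ioc 0 N, ‖a n‖ ^ 2 := by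
    refine le_trans ?_ hLS
    calc (𝓜.card : ℝ) * η ^ (2 * k) = ∑ _m ∈ 𝓜, η ^ (2 * k) := by
          rw [sum_const, nsmul_eq_mul]
      _ ≤ ∑ m ∈ 𝓜, (m : ℝ) / Nat.totient m *
          ∑ χ : DirichletCharacter ℂ m with χ.IsPrimitive, ‖∑ n ∈ Ioc 0 N, a n * χ n‖ ^ 2 :=
          sum_le_sum hterm
      _ ≤ _ := by
          apply Finset.sum_le_sum_of_subset_of_nonneg
          · intro m hm
            obtain ⟨-, -, h1, hmR, -⟩ := h𝓜 m hm
            rw [mem_Icc]
            omega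
          · intro m _ _
            exact mul_nonneg (by positivity) (sum_nonneg (fun _ _ => by positivity))
  -- the right side
  have hVr : (0 : ℝ) < V := by exact_mod_cast hV
  have hCr : (1 : ℝ) ≤ C₁ := by exact_mod_cast hC
  have hnorm : ∀ n, ‖a n‖ ^ 2 ≤ (k.factorial : ℝ) / V ^ k *
      (((tup P k n).card : ℝ) * (1 / (n : ℝ))) := by
    intro n
    have h1 : ‖a n‖ = ((tup P k n).card : ℝ) / (n : ℝ) := by
      rw [ha]
      simp only []
      rw [Complex.norm_real, Real.norm_eq_abs, abs_of_nonneg (by positivity)]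
    rw [h1]
    rcases (tup P k n).eq_empty_or_nonempty with h | ⟨f, hf⟩
    · rw [h]
      simp
    have hn : V ^ k ≤ n := by
      rw [tup, mem_filter, Fintype.mem_piFinset] at hf
      rw [← hf.2]
      calc V ^ k = ∏ _i : Fin k, V := by simp
        _ ≤ ∏ i, f i := Finset.prod_le_prod' (fun i _ => (hP _ (hf.1 i)).2.1.le)
    have hnr : (V : ℝ) ^ k ≤ n := by exact_mod_cast hn
    have hVk : (0 : ℝ) < (V : ℝ) ^ k := by positivity
    have hn0 : (0 : ℝ) < n := lt_of_lt_of_le hVk hnr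
    have hc := card_tup_le P k n (fun ℓ hℓ => (hP ℓ hℓ).1)
    have hcr : ((tup P k n).card : ℝ) ≤ k.factorial := by exact_mod_cast hc
    have h5 : ((tup P k n).card : ℝ) / (n : ℝ) ≤ (k.factorial : ℝ) / V ^ k :=
      div_le_div₀ (by positivity) hcr hVk hnr
    calc (((tup P k n).card : ℝ) / (n : ℝ)) ^ 2
        = ((tup P k n).card : ℝ) / (n : ℝ) * (((tup P k n).card : ℝ) / (n : ℝ)) := by ring
      _ ≤ (k.factorial : ℝ) / V ^ k * (((tup P k n).card : ℝ) / (n : ℝ)) :=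
          mul_le_mul_of_nonneg_right h5 (by positivity)
      _ = _ := by ring
  have hsum2 : ∑ n ∈ Ioc 0 N, ‖a n‖ ^ 2 ≤ (k.factorial : ℝ) / V ^ k * hs P ^ k := by
    calc ∑ n ∈ Ioc 0 N, ‖a n‖ ^ 2 ≤ ∑ n ∈ Ioc 0 N, (k.factorial : ℝ) / V ^ k *
          (((tup P k n).card : ℝ) * (1 / (n : ℝ))) := sum_le_sum (fun n _ => hnorm n)
      _ = _ := by
          rw [← mul_sum, hs_pow, group P k N (C₁ * V) hPV (le_refl _) (fun n : ℕ => 1 / (n : ℝ))]
  have hNR : (N : ℝ) + R ^ 2 ≤ 2 * ((C₁ : ℝ) * V) ^ k := by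
    have h1 : (N : ℝ) = ((C₁ : ℝ) * V) ^ k := by
      rw [hN]
      push_cast
      ring
    have h2 : ((R : ℝ)) ^ 2 ≤ (V : ℝ) ^ k := by exact_mod_cast hR
    have h3 : (V : ℝ) ^ k ≤ ((C₁ : ℝ) * V) ^ k := by
      apply pow_le_pow_left₀ hVr.le
      nlinarith
    rw [h1]
    linarith
  have hfac : (k.factorial : ℝ) ≤ (k : ℝ) ^ k := by exact_mod_cast Nat.factorial_le_pow k
  have hhs : hs P ^ k ≤ (C₁ : ℝ) ^ k :=
    pow_le_pow_left₀ (hs_nonneg P) (hs_le P V C₁ hV (fun ℓ hℓ => (hP ℓ hℓ).2)) k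
  have hfinal : (𝓜.card : ℝ) * η ^ (2 * k) ≤ 10 * ((C₁ : ℝ) ^ 2 * k) ^ k := by
    calc (𝓜.card : ℝ) * η ^ (2 * k) ≤ 5 * ((N : ℝ) + R ^ 2) * ∑ n ∈ Ioc 0 N, ‖a n‖ ^ 2 := hLHS
      _ ≤ 5 * (2 * ((C₁ : ℝ) * V) ^ k) * ((k.factorial : ℝ) / V ^ k * hs P ^ k) := by
          apply mul_le_mul
          · linarith
          · exact hsum2
          · exact sum_nonneg (fun _ _ => by positivity)
          · positivity
      _ = 10 * (C₁ : ℝ) ^ k * (k.factorial : ℝ) * hs P ^ k := by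
          rw [mul_pow]
          field_simp
          ring
      _ ≤ 10 * (C₁ : ℝ) ^ k * ((k : ℝ) ^ k) * (C₁ : ℝ) ^ k := by
          apply mul_le_mul
          · apply mul_le_mul_of_nonneg_left hfac
            positivity
          · exact hhs
          · exact pow_nonneg (hs_nonneg P) k
          · positivity
      _ = 10 * ((C₁ : ℝ) ^ 2 * k) ^ k := by
          rw [mul_pow, ← pow_mul]
          rw [show 2 * k = k + k from by ring, pow_add]
          ring
  rw [div_pow, ← pow_mul]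
  rw [mul_div_assoc', le_div_iff₀ (by positivity)]
  exact hfinal

end Pool.Agent.helper7.OC
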