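import Mathlib
import Pool.Agent.helper23.OC.BB1

/-!
# The number of exceptional moduli
-/

set_option autoImplicit false

open Finset

namespace Pool.Agent.helper7.OC

/-- The number of exceptional moduli, with the characters as hypothesis. -/
theorem exc_count_aux
    (jac : ∀ (m : ℕ), Squarefree m → Odd m → 1 < m →
      ∃ χ : DirichletCharacter ℂ m, χ.IsPrimitive ∧ ∀ n : ℕ, χ n = (jacobiSym (n : ℤ) m : ℂ))
    (C₁ : ℕ) (A : ℝ) (hA : 100 ≤ A) : ∃ X₀ : ℕ, ∀ X : ℕ, X₀ ≤ X →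
    ∀ (V R : ℕ) (P 𝓜 : Finset ℕ), (Real.log X) ^ A ≤ V → R ≤ 24 * X →
    (∀ ℓ ∈ P, ℓ.Prime ∧ V < ℓ ∧ ℓ ≤ C₁ * V) →
    (∀ m ∈ 𝓜, Squarefree m ∧ Odd m ∧ 1 < m ∧ m ≤ R ∧ 1 / (Real.log X) ^ 3 ≤ |cs P m|) →
    (𝓜.card : ℝ) ≤ (Real.log X) ^ 8 * (R : ℝ) ^ (14 / A) := by
  have hlog : Filter.Tendsto (fun X : ℕ => Real.log (X : ℝ)) Filter.atTop Filter.atTop :=
    Real.tendsto_log_atTop.comp tendsto_natCast_atTop_atTop
  have hloglog : Filter.Tendsto (fun X : ℕ => Real.log (Real.log (X : ℝ))) Filter.atTop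
      Filter.atTop := Real.tendsto_log_atTop.comp hlog
  have hev := (hlog.eventually_ge_atTop (2 * (C₁ : ℝ) ^ 2 + 10)).and
    ((hloglog.eventually_ge_atTop ((C₁ : ℝ) ^ 2 + 1)).and (Filter.eventually_ge_atTop 24))
  obtain ⟨X₀, hX₀⟩ := Filter.eventually_atTop.1 hev
  refine ⟨X₀, fun X hX V R P 𝓜 hV hR hP h𝓜 => ?_⟩
  obtain ⟨h1, h2, h3⟩ := hX₀ X hX
  set L := Real.log (X : ℝ) with hL
  have hC0 : (0 : ℝ) ≤ (C₁ : ℝ) ^ 2 := by positivity
  have hL10 : 10 ≤ L := by linarith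
  have hLpos : 0 < L := by linarith
  rcases 𝓜.eq_empty_or_nonempty with hemp | ⟨m₀, hm₀⟩
  · rw [hemp]
    simp only [card_empty, Nat.cast_zero]
    positivity
  obtain ⟨-, -, hm1, hmR, hcs⟩ := h𝓜 m₀ hm₀
  have hR2 : 2 ≤ R := by omega
  have hC1 : 1 ≤ C₁ := by
    by_contra hcon
    have hC : C₁ = 0 := by omega
    have hPe : P = ∅ := by
      rw [Finset.eq_empty_iff_forall_notMem]
      intro ℓ hℓ
      have := hP ℓ hℓ
      rw [hC] at this
      omega
    rw [hPe] at hcs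
    simp only [cs, sum_empty, abs_zero] at hcs
    have : 0 < 1 / L ^ 3 := by positivity
    linarith
  have hLA : (1 : ℝ) < L ^ A := by
    apply Real.one_lt_rpow <;> linarith
  have hVr : (1 : ℝ) < V := lt_of_lt_of_le hLA hV
  have hV1 : 1 ≤ V := by
    have : (1 : ℝ) ≤ V := hVr.le
    exact_mod_cast this
  have hlogV : A * Real.log L ≤ Real.log V := by
    rw [← Real.log_rpow hLpos]
    exact Real.log_le_log (by positivity) hV
  have hlogL : 1 ≤ Real.log L := by linarith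
  have hlogVpos : 0 < Real.log V := by nlinarith
  have hRr : (2 : ℝ) ≤ R := by exact_mod_cast hR2
  have hlogR : 0 ≤ Real.log R := Real.log_nonneg (by linarith)
  set y := 2 * Real.log R / Real.log V with hy
  have hy0 : 0 ≤ y := by positivity
  set k := max 1 ⌈y⌉₊ with hk
  have hk1 : 1 ≤ k := le_max_left _ _
  have hky : y ≤ k := le_trans (Nat.le_ceil y) (by exact_mod_cast le_max_right _ _)
  have hkle : (k : ℝ) ≤ 1 + y := by
    rw [hk]
    push_cast
    apply max_le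
    · linarith
    · have := Nat.ceil_lt_add_one hy0
      linarith
  -- R ^ 2 ≤ V ^ k
  have hRV : R ^ 2 ≤ V ^ k := by
    have h5 : ((R : ℝ)) ^ 2 ≤ (V : ℝ) ^ k := by
      rw [← Real.log_le_log_iff (by positivity) (by positivity), Real.log_pow, Real.log_pow]
      push_cast
      rw [hy, div_le_iff₀ hlogVpos] at hky
      exact hky
    exact_mod_cast h5
  have hη : 0 < 1 / L ^ 3 := by positivity
  have hmom := moment_aux jac P 𝓜 V R C₁ k (1 / L ^ 3) hV1 hC1 hP hRV hη h𝓜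
  -- C₁ ^ 2 * k ≤ L
  have hlogR2 : Real.log R ≤ 2 * L := by
    have h5 : (R : ℝ) ≤ (X : ℝ) ^ 2 := by
      have : R ≤ X ^ 2 := by nlinarith
      exact_mod_cast this
    have hX0 : (0 : ℝ) < X := by
      have : (24 : ℝ) ≤ X := by exact_mod_cast h3
      linarith
    calc Real.log R ≤ Real.log ((X : ℝ) ^ 2) := Real.log_le_log (by linarith) h5
      _ = 2 * L := by
        rw [Real.log_pow]
        push_cast
        rfl
  have hy2 : (C₁ : ℝ) ^ 2 * y ≤ L / 2 := by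
    rw [hy, mul_div_assoc', div_le_iff₀ hlogVpos]
    have h5 : (C₁ : ℝ) ^ 2 * (2 * Real.log R) ≤ (C₁ : ℝ) ^ 2 * (4 * L) := by
      apply mul_le_mul_of_nonneg_left _ hC0
      linarith
    have h6 : L / 2 * (100 * Real.log L) ≤ L / 2 * Real.log V := by
      apply mul_le_mul_of_nonneg_left _ (by linarith)
      nlinarith
    have h7 : (C₁ : ℝ) ^ 2 * (4 * L) ≤ L / 2 * (100 * Real.log L) := by
      have h8 : (C₁ : ℝ) ^ 2 ≤ Real.log L := by linarith
      nlinarith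
    linarith
  have hkL : (C₁ : ℝ) ^ 2 * k ≤ L := by
    have : (C₁ : ℝ) ^ 2 * k ≤ (C₁ : ℝ) ^ 2 * (1 + y) := mul_le_mul_of_nonneg_left hkle hC0
    nlinarith
  -- the bound
  have hb : (C₁ : ℝ) ^ 2 * k / (1 / L ^ 3) ^ 2 ≤ L ^ 7 := by
    rw [one_div, inv_pow, div_inv_eq_mul, ← pow_mul]
    calc (C₁ : ℝ) ^ 2 * k * L ^ (3 * 2) ≤ L * L ^ (3 * 2) :=
          mul_le_mul_of_nonneg_right hkL (by positivity)
      _ = L ^ 7 := by ring
  have hb2 : ((C₁ : ℝ) ^ 2 * k / (1 / L ^ 3) ^ 2) ^ k ≤ (L ^ 7) ^ k :=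
    pow_le_pow_left₀ (by positivity) hb k
  have hb3 : (L ^ 7) ^ k ≤ L ^ 7 * (R : ℝ) ^ (14 / A) := by
    have hA0 : 0 < A := by linarith
    rw [← Real.log_le_log_iff (by positivity) (by positivity), Real.log_mul (by positivity)
      (by positivity), Real.log_rpow (by linarith), Real.log_pow, Real.log_pow]
    push_cast
    have h5 : (k : ℝ) * (7 * Real.log L) ≤ (1 + y) * (7 * Real.log L) :=
      mul_le_mul_of_nonneg_right hkle (by linarith)
    have h6 : y * (7 * Real.log L) ≤ 14 / A * Real.log R := by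
      rw [hy, div_mul_eq_mul_div, div_le_iff₀ hlogVpos, div_mul_eq_mul_div, div_mul_eq_mul_div,
        le_div_iff₀ hA0]
      nlinarith [mul_le_mul_of_nonneg_left hlogV (by linarith : (0 : ℝ) ≤ 14 * Real.log R)]
    linarith
  calc (𝓜.card : ℝ) ≤ 10 * ((C₁ : ℝ) ^ 2 * k / (1 / L ^ 3) ^ 2) ^ k := hmom
    _ ≤ 10 * (L ^ 7 * (R : ℝ) ^ (14 / A)) := by linarith
    _ ≤ L * (L ^ 7 * (R : ℝ) ^ (14 / A)) := by
        apply mul_le_mul_of_nonneg_right hL10
        positivity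
    _ = L ^ 8 * (R : ℝ) ^ (14 / A) := by ring

end Pool.Agent.helper7.OC
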