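import Mathlib
import Pool.Agent.helper12.OC.BB0
import Pool.Agent.helper23.OC.BB1
import Pool.Agent.helper23.OC.BB8

/-!
# Final forms of the modules BB1 and BB8 (with `jac_char` of BB0)
-/

set_option autoImplicit false

open Finset

namespace Pool.Agent.helper7.OC

theorem moment (P 𝓜 : Finset ℕ) (V R C₁ k : ℕ) (η : ℝ) (_hk : 1 ≤ k) (hV : 1 ≤ V) (hC : 1 ≤ C₁)
    (hP : ∀ ℓ ∈ P, ℓ.Prime ∧ V < ℓ ∧ ℓ ≤ C₁ * V) (hR : R ^ 2 ≤ V ^ k) (hη : 0 < η)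
    (h𝓜 : ∀ m ∈ 𝓜, Squarefree m ∧ Odd m ∧ 1 < m ∧ m ≤ R ∧ η ≤ |cs P m|) :
    (𝓜.card : ℝ) ≤ 10 * (C₁ ^ 2 * k / η ^ 2) ^ k :=
  moment_aux jac_char P 𝓜 V R C₁ k η hV hC hP hR hη h𝓜

theorem exc_count (C₁ : ℕ) (A : ℝ) (hA : 100 ≤ A) : ∃ X₀ : ℕ, ∀ X : ℕ, X₀ ≤ X →
    ∀ (V R : ℕ) (P 𝓜 : Finset ℕ), (Real.log X) ^ A ≤ V → R ≤ 24 * X →
    (∀ ℓ ∈ P, ℓ.Prime ∧ V < ℓ ∧ ℓ ≤ C₁ * V) →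
    (∀ m ∈ 𝓜, Squarefree m ∧ Odd m ∧ 1 < m ∧ m ≤ R ∧ 1 / (Real.log X) ^ 3 ≤ |cs P m|) →
    (𝓜.card : ℝ) ≤ (Real.log X) ^ 8 * (R : ℝ) ^ (14 / A) :=
  exc_count_aux jac_char C₁ A hA

end Pool.Agent.helper7.OC
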